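import Pool.Agent.H8.AA.Def

/-! # Counting lemmas for THEOREM AA: fibres, one free coordinate, number of exponents -/

set_option autoImplicit false

namespace Pool.Agent.H36.AA

open Finset Pool.Agent.H8.AA

theorem fib {ι : Type} [Fintype ι] [DecidableEq ι] (J : Finset ι) (H M : ℕ) (S : Finset (ι → ℤ))
    (hS : ∀ c ∈ S, ∀ i, |c i| ≤ (H : ℤ))
    (h : ∀ c ∈ S, ∀ T : Finset (ι → ℤ), (∀ c' ∈ T, c' ∈ S ∧ ∀ i, i ∉ J → c' i = c i) → T.card ≤ M) :
    S.card ≤ M * (2 * H + 1) ^ (Fintype.card ι - J.card) := by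
  classical
  let r : (ι → ℤ) → (ι → ℤ) := fun c i => if i ∈ J then 0 else c i
  let B : Finset (ι → ℤ) :=
    Fintype.piFinset fun i => if i ∈ J then ({0} : Finset ℤ) else Icc (-(H : ℤ)) H
  have hB : B.card = (2 * H + 1) ^ (Fintype.card ι - J.card) := by
    rw [Fintype.card_piFinset]
    have h1 : ∀ i : ι, (if i ∈ J then ({0} : Finset ℤ) else Icc (-(H : ℤ)) H).card =
        if i ∈ J then 1 else (2 * H + 1) := by
      intro i
      split_ifs with hi
      · simp
      · rw [Int.card_Icc]
        omega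
    rw [Finset.prod_congr rfl fun i _ => h1 i, Finset.prod_ite]
    rw [Finset.prod_const_one, one_mul, Finset.prod_const]
    congr 1
    rw [← Finset.card_univ, ← Finset.card_sdiff_of_subset (Finset.subset_univ J)]
    congr 1
    ext i
    simp
  rw [← hB]
  refine Finset.card_le_mul_card_image_of_maps_to (f := r) ?_ M ?_
  · intro c hc
    rw [Fintype.mem_piFinset]
    intro i
    by_cases hi : i ∈ J
    · simp [r, hi]
    · simp only [r, hi, if_false, Finset.mem_Icc]
      exact abs_le.1 (hS c hc i)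
  · intro b _
    rcases (S.filter fun c => r c = b).eq_empty_or_nonempty with h0 | ⟨c, hc⟩
    · rw [h0]
      simp
    · rw [Finset.mem_filter] at hc
      refine h c hc.1 _ ?_
      intro c' hc'
      rw [Finset.mem_filter] at hc'
      refine ⟨hc'.1, fun i hi => ?_⟩
      have h2 : r c' i = r c i := by rw [hc'.2, hc.2]
      simpa [r, hi] using h2

theorem img {ι : Type} [DecidableEq ι] (i : ι) (M : ℕ) (S T : Finset (ι → ℤ))
    (hT : ∀ c ∈ S, Function.update c i 0 ∈ T)
    (h : ∀ c ∈ S, ∀ R : Finset (ι → ℤ), (∀ c' ∈ R, c' ∈ S ∧ ∀ j, j ≠ i → c' j = c j) → R.card ≤ M) :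
    S.card ≤ M * T.card := by
  classical
  refine Finset.card_le_mul_card_image_of_maps_to (f := fun c => Function.update c i 0) hT M ?_
  intro b _
  rcases (S.filter fun c => Function.update c i 0 = b).eq_empty_or_nonempty with h0 | ⟨c, hc⟩
  · rw [h0]
    simp
  · rw [Finset.mem_filter] at hc
    refine h c hc.1 _ ?_
    intro c' hc'
    rw [Finset.mem_filter] at hc'
    refine ⟨hc'.1, fun j hj => ?_⟩
    have h2 : Function.update c' i 0 j = Function.update c i 0 j := by rw [hc'.2, hc.2]
    rwa [Function.update_of_ne hj, Function.update_of_ne hj] at h2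

private def eqv (n : ℕ) : Ix n ≃ Σ a : Fin (n + 1), Fin (n + 1 - a.val) where
  toFun p := ⟨p.1.1, ⟨p.1.2.val, by have := p.2; omega⟩⟩
  invFun q := ⟨(q.1, ⟨q.2.val, by have := q.2.2; omega⟩), by
    have h1 := q.2.2
    have h2 := q.1.2
    simp only
    omega⟩
  left_inv p := rfl
  right_inv q := rfl

theorem card_ix (n : ℕ) : Fintype.card (Ix n) = (n + 1) * (n + 2) / 2 := by
  rw [Fintype.card_congr (eqv n), Fintype.card_sigma]
  simp only [Fintype.card_fin]
  rw [Fin.sum_univ_eq_sum_range (fun a => n + 1 - a) (n + 1)]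
  have h1 : ∑ a ∈ range (n + 1), (n + 1 - a) = ∑ a ∈ range (n + 2), a := by
    rw [Finset.sum_range_succ' _ (n + 1), ← Finset.sum_range_reflect, add_zero]
    refine Finset.sum_congr rfl fun j hj => ?_
    have := Finset.mem_range.1 hj
    omega
  rw [h1, Finset.sum_range_id]
  congr 1
  rw [Nat.add_sub_assoc (by norm_num)]
  ring

theorem card_box' (n H : ℕ) :
    (Fintype.piFinset fun _ : Ix n => Icc (-(H : ℤ)) H).card =
      (2 * H + 1) ^ ((n + 1) * (n + 2) / 2) := by
  rw [Fintype.card_piFinset, Finset.prod_const, Finset.card_univ, card_ix, Int.card_Icc]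
  congr 1
  omega

end Pool.Agent.H36.AA
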