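import Mathlib

/-!
THEOREM AA, letters LIN and CLS: an integer polynomial of degree `n ≥ 1` has at most `n (2 H^(1/n) + 1)` integers `k`
with `|p(k)| ≤ H`; a set of integer points, any three of them collinear, with `|F| ≤ H`, where the form of degree `n` of
`F` has no rational zero, has at most `n (2 H^(1/n) + 1)` elements.
-/

set_option autoImplicit false

open Finset Polynomial

namespace Pool.Agent.H36.AA

theorem prod_big {h : ℝ} (h0 : 0 ≤ h) (s : Multiset ℝ) (hs : ∀ x ∈ s, h < x) (hne : s ≠ 0) :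
    h ^ s.card < s.prod := by
  induction s using Multiset.induction with
  | empty => exact absurd rfl hne
  | cons a s ih =>
    rw [Multiset.card_cons, Multiset.prod_cons, pow_succ, mul_comm]
    have ha : h < a := hs a (Multiset.mem_cons_self a s)
    rcases eq_or_ne s 0 with h1 | h1
    · subst h1
      simpa using ha
    · have h2 := ih (fun x hx => hs x (Multiset.mem_cons_of_mem hx)) h1
      have h3 : 0 ≤ h ^ s.card := by positivity
      calc h * h ^ s.card ≤ a * h ^ s.card := mul_le_mul_of_nonneg_right ha.le h3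
        _ < a * s.prod := mul_lt_mul_of_pos_left h2 (lt_of_le_of_lt h0 ha)

/-- **LIN.** -/
theorem poly_small {n : ℕ} (hn : 1 ≤ n) (p : ℤ[X]) (hdeg : p.natDegree = n) {H : ℝ} (hH : 0 ≤ H) (S : Finset ℤ)
    (hS : ∀ k ∈ S, |((p.eval k : ℤ) : ℝ)| ≤ H) :
    (S.card : ℝ) ≤ n * (2 * H ^ ((1 : ℝ) / n) + 1) := by
  classical
  set h : ℝ := H ^ ((1 : ℝ) / n) with hh
  have h0 : 0 ≤ h := Real.rpow_nonneg hH _
  have hn0 : (n : ℝ) ≠ 0 := by
    have : 0 < n := hn
    positivity
  have hpow : h ^ n = H := by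
    rw [hh, ← Real.rpow_natCast, ← Real.rpow_mul hH, one_div, inv_mul_cancel₀ hn0, Real.rpow_one]
  set P : ℂ[X] := p.map (Int.castRingHom ℂ) with hP
  have hinj : Function.Injective (Int.castRingHom ℂ) := Int.cast_injective
  have hPdeg : P.natDegree = n := by rw [hP, natDegree_map_eq_of_injective hinj, hdeg]
  have hp0 : p ≠ 0 := by
    rintro rfl
    rw [natDegree_zero] at hdeg
    omega
  have hcard : P.roots.card = n := by
    rw [← hPdeg]
    exact (splits_iff_card_roots).1 (IsAlgClosed.splits P)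
  have hroot : ∀ k ∈ S, ∃ a ∈ P.roots, ‖(k : ℂ) - a‖ ≤ h := by
    intro k hk
    by_contra hcon
    push Not at hcon
    have e1 : P.eval (k : ℂ) = P.leadingCoeff * (P.roots.map fun a => (k : ℂ) - a).prod := by
      conv_lhs => rw [(IsAlgClosed.splits P).eq_prod_roots]
      rw [eval_mul, eval_C, eval_multiset_prod, Multiset.map_map]
      simp
    have e2 : P.eval (k : ℂ) = ((p.eval k : ℤ) : ℂ) := by
      rw [hP, eval_map, eval₂_at_intCast]
      simp
    have e3 : ‖P.eval (k : ℂ)‖ = |((p.eval k : ℤ) : ℝ)| := by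
      rw [e2]
      simp [Complex.norm_intCast]
    have e4 : ‖P.leadingCoeff‖ ≥ 1 := by
      rw [hP, leadingCoeff_map_of_injective hinj]
      simp only [eq_intCast, Complex.norm_intCast, ge_iff_le]
      have : p.leadingCoeff ≠ 0 := leadingCoeff_ne_zero.2 hp0
      exact_mod_cast Int.one_le_abs this
    have e5 : ‖(P.roots.map fun a => (k : ℂ) - a).prod‖ = (P.roots.map fun a => ‖(k : ℂ) - a‖).prod := by
      have := map_multiset_prod (normHom : ℂ →*₀ ℝ) (P.roots.map fun a => (k : ℂ) - a)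
      rw [Multiset.map_map] at this
      simpa using this
    have e6 : h ^ n < (P.roots.map fun a => ‖(k : ℂ) - a‖).prod := by
      have h7 := prod_big h0 (P.roots.map fun a => ‖(k : ℂ) - a‖) (by
        intro x hx
        obtain ⟨a, ha, rfl⟩ := Multiset.mem_map.1 hx
        exact hcon a ha) (by
        intro h8
        have := congrArg Multiset.card h8
        rw [Multiset.card_map, hcard, Multiset.card_zero] at this
        omega)
      rwa [Multiset.card_map, hcard] at h7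
    have e7 : H < ‖P.eval (k : ℂ)‖ := by
      rw [e1, norm_mul, e5, ← hpow]
      calc h ^ n < (P.roots.map fun a => ‖(k : ℂ) - a‖).prod := e6
        _ = 1 * (P.roots.map fun a => ‖(k : ℂ) - a‖).prod := (one_mul _).symm
        _ ≤ ‖P.leadingCoeff‖ * (P.roots.map fun a => ‖(k : ℂ) - a‖).prod :=
            mul_le_mul_of_nonneg_right e4 (le_trans (by positivity) e6.le)
    rw [e3] at e7
    exact absurd (hS k hk) (not_le.2 e7)
  have hsub : S ⊆ P.roots.toFinset.biUnion fun a => Finset.Icc ⌈a.re - h⌉ ⌊a.re + h⌋ := by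
    intro k hk
    obtain ⟨a, ha, hka⟩ := hroot k hk
    refine mem_biUnion.2 ⟨a, Multiset.mem_toFinset.2 ha, ?_⟩
    have h1 : |(k : ℝ) - a.re| ≤ h := by
      have := Complex.abs_re_le_norm ((k : ℂ) - a)
      simp only [Complex.sub_re, Complex.intCast_re] at this
      exact this.trans hka
    rw [abs_le] at h1
    rw [Finset.mem_Icc]
    exact ⟨Int.ceil_le.2 (by linarith [h1.1]), Int.le_floor.2 (by linarith [h1.2])⟩
  have hIcc : ∀ a : ℂ, ((Finset.Icc ⌈a.re - h⌉ ⌊a.re + h⌋).card : ℝ) ≤ 2 * h + 1 := by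
    intro a
    rw [Int.card_Icc]
    have h1 : ((⌊a.re + h⌋ + 1 - ⌈a.re - h⌉ : ℤ) : ℝ) ≤ 2 * h + 1 := by
      push_cast
      have h2 := Int.floor_le (a.re + h)
      have h3 := Int.le_ceil (a.re - h)
      linarith
    rcases le_or_gt 0 (⌊a.re + h⌋ + 1 - ⌈a.re - h⌉) with h4 | h4
    · have h5 : (((⌊a.re + h⌋ + 1 - ⌈a.re - h⌉).toNat : ℕ) : ℝ) =
          ((⌊a.re + h⌋ + 1 - ⌈a.re - h⌉ : ℤ) : ℝ) := by
        have := Int.toNat_of_nonneg h4
        exact_mod_cast congrArg (Int.cast : ℤ → ℝ) this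
      rw [h5]; exact h1
    · rw [Int.toNat_of_nonpos h4.le]
      push_cast
      linarith
  calc (S.card : ℝ) ≤ ((P.roots.toFinset.biUnion fun a => Finset.Icc ⌈a.re - h⌉ ⌊a.re + h⌋).card : ℝ) := by
        exact_mod_cast card_le_card hsub
    _ ≤ ∑ a ∈ P.roots.toFinset, ((Finset.Icc ⌈a.re - h⌉ ⌊a.re + h⌋).card : ℝ) := by
        exact_mod_cast card_biUnion_le
    _ ≤ ∑ _a ∈ P.roots.toFinset, (2 * h + 1) := sum_le_sum fun a _ => hIcc a
    _ = P.roots.toFinset.card * (2 * h + 1) := by rw [sum_const, nsmul_eq_mul]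
    _ ≤ n * (2 * h + 1) := by
        refine mul_le_mul_of_nonneg_right ?_ (by linarith)
        have : P.roots.toFinset.card ≤ n := by
          rw [← hcard]
          exact Multiset.toFinset_card_le _
        exact_mod_cast this

/-- the value at `(x, y)` of the polynomial with the coefficients `b k j` at `x ^ (n - k - j) y ^ j` -/
def Fz (n : ℕ) (b : ℕ → ℕ → ℤ) (x y : ℤ) : ℤ :=
  ∑ k ∈ Finset.range (n + 1), ∑ j ∈ Finset.range (n + 1), b k j * (x ^ (n - k - j) * y ^ j)

/-- the value of the form of degree `n` -/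
def fz (n : ℕ) (b : ℕ → ℕ → ℤ) (x y : ℤ) : ℤ :=
  ∑ j ∈ Finset.range (n + 1), b 0 j * (x ^ (n - j) * y ^ j)

theorem coeff_lin {x0 u : ℤ} (m : ℕ) : ((C x0 + C u * X : ℤ[X]) ^ m).coeff m = u ^ m := by
  have h1 : (C x0 + C u * X : ℤ[X]).natDegree ≤ 1 := by
    have := natDegree_linear_le (a := u) (b := x0)
    rwa [add_comm] at this
  have h2 := coeff_pow_of_natDegree_le (m := m) h1
  rw [mul_one] at h2
  rw [h2, coeff_add, coeff_C_mul, coeff_X_one, coeff_C, if_neg one_ne_zero, zero_add, mul_one]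

theorem deg_lin {x0 u : ℤ} (m : ℕ) : ((C x0 + C u * X : ℤ[X]) ^ m).natDegree ≤ m := by
  have h1 : (C x0 + C u * X : ℤ[X]).natDegree ≤ 1 := by
    have := natDegree_linear_le (a := u) (b := x0)
    rwa [add_comm] at this
  calc _ ≤ m * (C x0 + C u * X : ℤ[X]).natDegree := natDegree_pow_le
    _ ≤ m * 1 := Nat.mul_le_mul_left m h1
    _ = m := mul_one m

/-- the values on a line are those of a polynomial whose coefficient at `k ^ n` is the value of the form at the
direction of the line -/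
theorem line {n : ℕ} {b : ℕ → ℕ → ℤ} (h0 : ∀ k j, n < k + j → b k j = 0) (x0 y0 u v : ℤ) :
    ∃ p : ℤ[X], p.natDegree ≤ n ∧ p.coeff n = fz n b u v ∧
      ∀ k : ℤ, p.eval k = Fz n b (x0 + k * u) (y0 + k * v) := by
  set q : ℕ → ℕ → ℤ[X] := fun k j => C (b k j) * ((C x0 + C u * X) ^ (n - k - j) * (C y0 + C v * X) ^ j) with hq
  have hdq : ∀ k j, k + j ≤ n → (q k j).natDegree ≤ n - k := by
    intro k j hkj
    rw [hq]
    refine (natDegree_C_mul_le _ _).trans (natDegree_mul_le.trans ?_)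
    have h1 := deg_lin (x0 := x0) (u := u) (n - k - j)
    have h2 := deg_lin (x0 := y0) (u := v) j
    omega
  have hdq' : ∀ k j, (q k j).natDegree ≤ n := by
    intro k j
    rcases lt_or_ge n (k + j) with h | h
    · rw [hq]
      simp only [h0 k j h, C_0, zero_mul, natDegree_zero, Nat.zero_le]
    · exact (hdq k j h).trans (Nat.sub_le _ _)
  refine ⟨∑ k ∈ Finset.range (n + 1), ∑ j ∈ Finset.range (n + 1), q k j, ?_, ?_, ?_⟩
  · exact natDegree_sum_le_of_forall_le _ _ fun k _ => natDegree_sum_le_of_forall_le _ _ fun j _ => hdq' k j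
  · rw [finsetSum_coeff]
    have h1 : ∀ k ∈ Finset.range (n + 1), k ≠ 0 →
        (∑ j ∈ Finset.range (n + 1), q k j).coeff n = 0 := by
      intro k hk hk0
      rw [finsetSum_coeff]
      refine sum_eq_zero fun j _ => ?_
      rcases lt_or_ge n (k + j) with h | h
      · rw [hq]
        simp only [h0 k j h, C_0, zero_mul, coeff_zero]
      · refine coeff_eq_zero_of_natDegree_lt ((hdq k j h).trans_lt ?_)
        have := Finset.mem_range.1 hk
        omega
    rw [sum_eq_single 0 h1 (by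
      intro h
      exact absurd (Finset.mem_range.2 (Nat.succ_pos n)) h), finsetSum_coeff]
    unfold fz
    refine sum_congr rfl fun j hj => ?_
    have hj' : j ≤ n := Nat.lt_succ_iff.1 (Finset.mem_range.1 hj)
    rw [hq]
    simp only [Nat.sub_zero, coeff_C_mul]
    congr 1
    have h2 := coeff_mul_add_eq_of_natDegree_le (deg_lin (x0 := x0) (u := u) (n - j)) (deg_lin (x0 := y0) (u := v) j)
    have h3 : n - j + j = n := Nat.sub_add_cancel hj'
    rw [h3] at h2
    rw [h2, coeff_lin, coeff_lin]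
  · intro k
    rw [eval_finsetSum]
    unfold Fz
    refine sum_congr rfl fun i _ => ?_
    rw [eval_finsetSum]
    refine sum_congr rfl fun j _ => ?_
    rw [hq]
    simp only [eval_mul, eval_pow, eval_add, eval_C, eval_X]
    rw [mul_comm u k, mul_comm v k]

/-- **CLS.** Integer points on one line. -/
theorem collinear_card {n : ℕ} (hn : 1 ≤ n) {b : ℕ → ℕ → ℤ} (h0 : ∀ k j, n < k + j → b k j = 0)
    (hf : ∀ u v : ℤ, (u ≠ 0 ∨ v ≠ 0) → fz n b u v ≠ 0) {H : ℝ} (hH : 1 ≤ H) (S : Finset (ℤ × ℤ))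
    (hS : ∀ P ∈ S, |((Fz n b P.1 P.2 : ℤ) : ℝ)| ≤ H)
    (hcol : ∀ P ∈ S, ∀ Q ∈ S, ∀ R ∈ S,
      (Q.1 - P.1) * (R.2 - P.2) - (R.1 - P.1) * (Q.2 - P.2) = 0) :
    (S.card : ℝ) ≤ n * (2 * H ^ ((1 : ℝ) / n) + 1) := by
  classical
  have hn1 : (1 : ℝ) ≤ n := by exact_mod_cast hn
  have hh1 : 1 ≤ H ^ ((1 : ℝ) / n) := Real.one_le_rpow hH (by positivity)
  rcases le_or_gt S.card 1 with hc | hc
  · have : (S.card : ℝ) ≤ 1 := by exact_mod_cast hc
    nlinarith
  obtain ⟨P, hP, Q, hQ, hPQ⟩ := one_lt_card.1 hc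
  set d : ℤ := (Int.gcd (Q.1 - P.1) (Q.2 - P.2) : ℤ) with hd
  have hne : Q.1 - P.1 ≠ 0 ∨ Q.2 - P.2 ≠ 0 := by
    by_contra hcon
    push Not at hcon
    apply hPQ
    ext
    · linarith [hcon.1]
    · linarith [hcon.2]
  have hd0 : d ≠ 0 := by
    rw [hd]
    intro h
    have h1 : Int.gcd (Q.1 - P.1) (Q.2 - P.2) = 0 := by exact_mod_cast h
    rw [Int.gcd_eq_zero_iff] at h1
    rcases hne with h2 | h2
    · exact h2 h1.1
    · exact h2 h1.2
  obtain ⟨u, hu⟩ : d ∣ Q.1 - P.1 := Int.gcd_dvd_left ..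
  obtain ⟨v, hv⟩ : d ∣ Q.2 - P.2 := Int.gcd_dvd_right ..
  have huv : IsCoprime u v := by
    rw [Int.isCoprime_iff_gcd_eq_one]
    have h1 : Int.gcd (d * u) (d * v) = d.natAbs * Int.gcd u v := Int.gcd_mul_left d u v
    rw [← hu, ← hv] at h1
    have h2 : d.natAbs = Int.gcd (Q.1 - P.1) (Q.2 - P.2) := by rw [hd]; simp
    rw [h2] at h1
    have h3 : 0 < Int.gcd (Q.1 - P.1) (Q.2 - P.2) := by
      rw [← h2]
      exact Int.natAbs_pos.2 hd0
    have h4 : Int.gcd (Q.1 - P.1) (Q.2 - P.2) * 1 =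
        Int.gcd (Q.1 - P.1) (Q.2 - P.2) * Int.gcd u v := by rw [mul_one]; exact h1
    exact (Nat.eq_of_mul_eq_mul_left h3 h4).symm
  have huv0 : u ≠ 0 ∨ v ≠ 0 := by
    rcases hne with h | h
    · left; rintro rfl; apply h; rw [hu, mul_zero]
    · right; rintro rfl; apply h; rw [hv, mul_zero]
  have hpar : ∀ R ∈ S, ∃ k : ℤ, R.1 = P.1 + k * u ∧ R.2 = P.2 + k * v := by
    intro R hR
    have h1 := hcol P hP Q hQ R hR
    rw [hu, hv] at h1
    have h2 : u * (R.2 - P.2) = v * (R.1 - P.1) := by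
      have : d * (u * (R.2 - P.2) - v * (R.1 - P.1)) = 0 := by linear_combination h1
      rcases mul_eq_zero.1 this with h3 | h3
      · exact absurd h3 hd0
      · linarith
    obtain ⟨a, b', hab⟩ := huv
    refine ⟨a * (R.1 - P.1) + b' * (R.2 - P.2), ?_, ?_⟩
    · linear_combination (-(R.1 - P.1)) * hab - b' * h2
    · linear_combination (-(R.2 - P.2)) * hab + a * h2
  obtain ⟨p, hp1, hp2, hp3⟩ := line h0 P.1 P.2 u v
  have hcoef : p.coeff n ≠ 0 := by rw [hp2]; exact hf u v huv0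
  have hdeg : p.natDegree = n := le_antisymm hp1 (le_natDegree_of_ne_zero hcoef)
  choose! g hg using hpar
  have hinj : Set.InjOn g (S : Set (ℤ × ℤ)) := by
    intro R hR R' hR' e
    have h1 := hg R hR
    have h2 := hg R' hR'
    ext
    · rw [h1.1, h2.1, e]
    · rw [h1.2, h2.2, e]
  rw [← card_image_of_injOn hinj]
  refine poly_small hn p hdeg (by linarith) _ ?_
  intro k hk
  obtain ⟨R, hR, rfl⟩ := mem_image.1 hk
  rw [hp3, ← (hg R hR).1, ← (hg R hR).2]
  exact hS R hR

end Pool.Agent.H36.AA
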